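import Mathlib.Order.Ideal
import Mathlib.Order.Zorn
import Mathlib.Data.Fintype.Perm
import Mathlib.GroupTheory.OrderOfElement
import Mathlib.Order.WellFounded

/-!
# Every lattice variety is determined by its symmetric identities

`Term ι` are the lattice terms in variables indexed by `ι`, `LatEq` is the congruence on terms
generated by the lattice laws (so `FL(n)` is `Term (Fin n)` modulo `LatEq`).  For every set `S`
of lattice identities, a lattice satisfies `S` if and only if it satisfies every symmetric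
identity that holds in the variety defined by `S`.
-/

set_option autoImplicit false

namespace Pool.Agent.Results.MP_fa43b0_al.SymmetricIdentities

universe u

/-- Lattice terms in variables indexed by `ι`. -/
inductive Term (ι : Type) : Type
  | var : ι → Term ι
  | meet : Term ι → Term ι → Term ι
  | join : Term ι → Term ι → Term ι

/-- Equality in the free lattice: the smallest congruence on the term algebra containing all
instances of the lattice laws.  The free lattice `FL(n)` is `Term (Fin n)` modulo this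
relation. -/
inductive LatEq {ι : Type} : Term ι → Term ι → Prop
  | refl (t : Term ι) : LatEq t t
  | symm {s t : Term ι} : LatEq s t → LatEq t s
  | trans {r s t : Term ι} : LatEq r s → LatEq s t → LatEq r t
  | meet_congr {s s' t t' : Term ι} : LatEq s s' → LatEq t t' → LatEq (.meet s t) (.meet s' t')
  | join_congr {s s' t t' : Term ι} : LatEq s s' → LatEq t t' → LatEq (.join s t) (.join s' t')
  | meet_comm (s t : Term ι) : LatEq (.meet s t) (.meet t s)
  | join_comm (s t : Term ι) : LatEq (.join s t) (.join t s)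
  | meet_assoc (r s t : Term ι) : LatEq (.meet (.meet r s) t) (.meet r (.meet s t))
  | join_assoc (r s t : Term ι) : LatEq (.join (.join r s) t) (.join r (.join s t))
  | meet_join_self (s t : Term ι) : LatEq (.meet s (.join s t)) s
  | join_meet_self (s t : Term ι) : LatEq (.join s (.meet s t)) s

/-- The value of a term at a tuple of elements of a lattice. -/
def Term.eval {ι : Type} {L : Type u} [Lattice L] (a : ι → L) : Term ι → L
  | .var i => a i
  | .meet s t => s.eval a ⊓ t.eval a
  | .join s t => s.eval a ⊔ t.eval a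

/-- Renaming of variables: replace each `x_i` by `x_{f i}`. -/
def Term.rename {ι κ : Type} (f : ι → κ) : Term ι → Term κ
  | .var i => .var (f i)
  | .meet s t => .meet (s.rename f) (t.rename f)
  | .join s t => .join (s.rename f) (t.rename f)

/-- A term `t` in `n` variables is symmetric if `t_σ = t` in `FL(n)` for every permutation `σ`
of the variables. -/
def Term.IsSymmetric {n : ℕ} (t : Term (Fin n)) : Prop :=
  ∀ σ : Equiv.Perm (Fin n), LatEq (t.rename σ) t

/-- A lattice identity `lhs ≈ rhs` in `n` variables. -/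
structure Identity : Type where
  /-- the number of variables -/
  n : ℕ
  /-- the left hand side -/
  lhs : Term (Fin n)
  /-- the right hand side -/
  rhs : Term (Fin n)

/-- The identity holds in the lattice `L`. -/
def Identity.HoldsIn (e : Identity) (L : Type u) [Lattice L] : Prop :=
  ∀ a : Fin e.n → L, e.lhs.eval a = e.rhs.eval a

/-- An identity is symmetric if both of its sides are symmetric elements of `FL(n)`. -/
def Identity.IsSymmetric (e : Identity) : Prop := e.lhs.IsSymmetric ∧ e.rhs.IsSymmetric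

/-- `L` belongs to the variety `𝒱` of lattices defined by the set `S` of identities. -/
def InVariety (S : Set Identity) (L : Type u) [Lattice L] : Prop := ∀ e ∈ S, e.HoldsIn L

/-- The identity `e` holds in (every member of) the variety `𝒱` defined by `S`. -/
def HoldsInVariety (S : Set Identity) (e : Identity) : Prop :=
  ∀ (M : Type u) [Lattice M], InVariety S M → e.HoldsIn M

/-- `L` belongs to the symmetric part `𝒱^sym` of the variety `𝒱` defined by `S`: it satisfies
every symmetric identity that holds in `𝒱`. -/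
def InSymmetricPart (S : Set Identity) (L : Type u) [Lattice L] : Prop :=
  ∀ e : Identity, e.IsSymmetric → HoldsInVariety.{u} S e → e.HoldsIn L

section terms

variable {ι κ : Type}

theorem eval_rename {L : Type u} [Lattice L] (f : ι → κ) (a : κ → L) (t : Term ι) :
    (t.rename f).eval a = t.eval (a ∘ f) := by
  induction t with
  | var i => rfl
  | meet s t hs ht => simp only [Term.rename, Term.eval, hs, ht]
  | join s t hs ht => simp only [Term.rename, Term.eval, hs, ht]

theorem eval_mono {L : Type u} [Lattice L] {a b : ι → L} (h : ∀ i, a i ≤ b i) (t : Term ι) :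
    t.eval a ≤ t.eval b := by
  induction t with
  | var i => exact h i
  | meet s t hs ht => exact inf_le_inf hs ht
  | join s t hs ht => exact sup_le_sup hs ht

/-- The setoid of `LatEq`. -/
@[instance_reducible]
def latSetoid (ι : Type) : Setoid (Term ι) :=
  ⟨LatEq, ⟨LatEq.refl, LatEq.symm, LatEq.trans⟩⟩

/-- The free lattice. -/
def FreeLat (ι : Type) : Type := Quotient (latSetoid ι)

/-- The class of a term in the free lattice. -/
def cls (t : Term ι) : FreeLat ι := Quotient.mk (latSetoid ι) t

instance : Max (FreeLat ι) :=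
  ⟨Quotient.map₂ Term.join (fun _ _ h _ _ h' => LatEq.join_congr h h')⟩

instance : Min (FreeLat ι) :=
  ⟨Quotient.map₂ Term.meet (fun _ _ h _ _ h' => LatEq.meet_congr h h')⟩

instance : Lattice (FreeLat ι) :=
  Lattice.mk'
    (by rintro ⟨a⟩ ⟨b⟩; exact Quotient.sound (LatEq.join_comm a b))
    (by rintro ⟨a⟩ ⟨b⟩ ⟨c⟩; exact Quotient.sound (LatEq.join_assoc a b c))
    (by rintro ⟨a⟩ ⟨b⟩; exact Quotient.sound (LatEq.meet_comm a b))
    (by rintro ⟨a⟩ ⟨b⟩ ⟨c⟩; exact Quotient.sound (LatEq.meet_assoc a b c))
    (by rintro ⟨a⟩ ⟨b⟩; exact Quotient.sound (LatEq.join_meet_self a b))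
    (by rintro ⟨a⟩ ⟨b⟩; exact Quotient.sound (LatEq.meet_join_self a b))

theorem eval_cls (t : Term ι) : t.eval (fun i => cls (Term.var i)) = cls t := by
  induction t with
  | var i => rfl
  | meet s t hs ht => simp only [Term.eval, hs, ht]; rfl
  | join s t hs ht => simp only [Term.eval, hs, ht]; rfl

theorem latEq_of_eval {s t : Term ι}
    (h : ∀ a : ι → FreeLat ι, s.eval a = t.eval a) : LatEq s t := by
  have h1 := h (fun i => cls (Term.var i))
  rw [eval_cls, eval_cls] at h1
  exact Quotient.exact h1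

/-- Iterated join. -/
def bigJoin (t : Term ι) (l : List (Term ι)) : Term ι := l.foldr Term.join t

/-- Iterated meet. -/
def bigMeet (t : Term ι) (l : List (Term ι)) : Term ι := l.foldr Term.meet t

theorem bigJoin_le {L : Type u} [Lattice L] (a : ι → L) (t : Term ι) (l : List (Term ι)) (z : L) :
    (bigJoin t l).eval a ≤ z ↔ t.eval a ≤ z ∧ ∀ s ∈ l, s.eval a ≤ z := by
  induction l with
  | nil => simp [bigJoin]
  | cons s l ih =>
    have : (bigJoin t (s :: l)).eval a = s.eval a ⊔ (bigJoin t l).eval a := rfl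
    rw [this, sup_le_iff, ih]
    simp only [List.mem_cons, forall_eq_or_imp]
    tauto

theorem le_bigMeet {L : Type u} [Lattice L] (a : ι → L) (t : Term ι) (l : List (Term ι)) (z : L) :
    z ≤ (bigMeet t l).eval a ↔ z ≤ t.eval a ∧ ∀ s ∈ l, z ≤ s.eval a := by
  induction l with
  | nil => simp [bigMeet]
  | cons s l ih =>
    have : (bigMeet t (s :: l)).eval a = s.eval a ⊓ (bigMeet t l).eval a := rfl
    rw [this, le_inf_iff, ih]
    simp only [List.mem_cons, forall_eq_or_imp]
    tauto

variable [Fintype ι] [DecidableEq ι]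

/-- The join of all `t_σ`. -/
noncomputable def symJoin (t : Term ι) : Term ι :=
  bigJoin t ((Finset.univ : Finset (Equiv.Perm ι)).toList.map
    (fun σ : Equiv.Perm ι => t.rename (σ : ι → ι)))

/-- The meet of all `t_σ`. -/
noncomputable def symMeet (t : Term ι) : Term ι :=
  bigMeet t ((Finset.univ : Finset (Equiv.Perm ι)).toList.map
    (fun σ : Equiv.Perm ι => t.rename (σ : ι → ι)))

theorem symJoin_le {L : Type u} [Lattice L] (a : ι → L) (t : Term ι) (z : L) :
    (symJoin t).eval a ≤ z ↔ ∀ σ : Equiv.Perm ι, t.eval (a ∘ σ) ≤ z := by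
  rw [symJoin, bigJoin_le]
  constructor
  · intro h σ
    have := h.2 (t.rename (σ : ι → ι))
      (List.mem_map.2 ⟨σ, Finset.mem_toList.2 (Finset.mem_univ _), rfl⟩)
    rwa [eval_rename] at this
  · intro h
    refine ⟨h 1, ?_⟩
    intro s hs
    obtain ⟨σ, _, rfl⟩ := List.mem_map.1 hs
    rw [eval_rename]
    exact h σ

theorem le_symMeet {L : Type u} [Lattice L] (a : ι → L) (t : Term ι) (z : L) :
    z ≤ (symMeet t).eval a ↔ ∀ σ : Equiv.Perm ι, z ≤ t.eval (a ∘ σ) := by
  rw [symMeet, le_bigMeet]
  constructor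
  · intro h σ
    have := h.2 (t.rename (σ : ι → ι))
      (List.mem_map.2 ⟨σ, Finset.mem_toList.2 (Finset.mem_univ _), rfl⟩)
    rwa [eval_rename] at this
  · intro h
    refine ⟨h 1, ?_⟩
    intro s hs
    obtain ⟨σ, _, rfl⟩ := List.mem_map.1 hs
    rw [eval_rename]
    exact h σ

theorem symJoin_comp {L : Type u} [Lattice L] (a : ι → L) (t : Term ι) (τ : Equiv.Perm ι) :
    (symJoin t).eval (a ∘ τ) = (symJoin t).eval a := by
  apply eq_of_forall_ge_iff
  intro z
  rw [symJoin_le, symJoin_le]
  constructor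
  · intro h σ
    have := h (τ⁻¹ * σ)
    have e : (a ∘ τ) ∘ ((τ⁻¹ * σ : Equiv.Perm ι)) = a ∘ σ := by
      funext i; simp
    rwa [e] at this
  · intro h σ
    exact h (τ * σ)

theorem symMeet_comp {L : Type u} [Lattice L] (a : ι → L) (t : Term ι) (τ : Equiv.Perm ι) :
    (symMeet t).eval (a ∘ τ) = (symMeet t).eval a := by
  apply eq_of_forall_le_iff
  intro z
  rw [le_symMeet, le_symMeet]
  constructor
  · intro h σ
    have := h (τ⁻¹ * σ)
    have e : (a ∘ τ) ∘ ((τ⁻¹ * σ : Equiv.Perm ι)) = a ∘ σ := by
      funext i; simp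
    rwa [e] at this
  · intro h σ
    exact h (τ * σ)

end terms

section core

variable {n : ℕ}

/-- The index type: `n` original variables, `n + 1` copies of `c`, `n + 1` copies of `d`. -/
abbrev J (n : ℕ) : Type := Fin n ⊕ (Fin (n + 1) ⊕ Fin (n + 1))

/-- The term `D`, whose value at the special tuple is `d`. -/
noncomputable def DD (n : ℕ) : Term (J n) :=
  symJoin (bigMeet (Term.var (Sum.inr (Sum.inr 0)))
    (List.ofFn (fun j : Fin (n + 1) => Term.var (Sum.inr (Sum.inr j)))))

/-- The term `C`, whose value at the special tuple is `c`. -/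
noncomputable def CC (n : ℕ) : Term (J n) :=
  symMeet (bigJoin (Term.var (Sum.inr (Sum.inl 0)))
    (List.ofFn (fun j : Fin (n + 1) => Term.var (Sum.inr (Sum.inl j)))))

/-- The special tuple. -/
def tup {M : Type u} (a : Fin n → M) (c d : M) : J n → M :=
  Sum.elim a (Sum.elim (fun _ => c) (fun _ => d))

/-- A permutation cannot move `n + 1` indices into a set of size `n`. -/
theorem exists_not_inl (f : Fin (n + 1) → J n) (hf : Function.Injective f) :
    ∃ j, ∃ k, f j = Sum.inr k := by
  by_contra h
  push Not at h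
  have h1 : ∀ j, ∃ i : Fin n, f j = Sum.inl i := by
    intro j
    rcases hj : f j with i | k
    · exact ⟨i, rfl⟩
    · exact absurd hj (h j k)
  choose g hg using h1
  have hg' : Function.Injective g := by
    intro x y hxy
    apply hf
    rw [hg x, hg y, hxy]
  have := Fintype.card_le_of_injective g hg'
  simp at this

variable {M : Type u} [Lattice M] (a : Fin n → M) (c d : M) (hcd : c ≤ d)

include hcd in
theorem tup_inr_le (k : Fin (n + 1) ⊕ Fin (n + 1)) : tup a c d (Sum.inr k) ≤ d := by
  rcases k with k | k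
  · exact hcd
  · exact le_refl d

include hcd in
theorem le_tup_inr (k : Fin (n + 1) ⊕ Fin (n + 1)) : c ≤ tup a c d (Sum.inr k) := by
  rcases k with k | k
  · exact le_refl c
  · exact hcd

include hcd in
theorem eval_DD : (DD n).eval (tup a c d) = d := by
  apply le_antisymm
  · rw [DD, symJoin_le]
    intro σ
    obtain ⟨j, k, hjk⟩ := exists_not_inl (fun j : Fin (n + 1) => σ (Sum.inr (Sum.inr j)))
      (fun x y hxy => by
        have := σ.injective hxy
        simpa using this)
    have h1 := (le_bigMeet (tup a c d ∘ σ) (Term.var (Sum.inr (Sum.inr 0)))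
      (List.ofFn (fun j : Fin (n + 1) => Term.var (Sum.inr (Sum.inr j)))) _).1 (le_refl _)
    have h2 := h1.2 (Term.var (Sum.inr (Sum.inr j))) (by rw [List.mem_ofFn]; exact ⟨j, rfl⟩)
    refine le_trans h2 ?_
    show tup a c d (σ (Sum.inr (Sum.inr j))) ≤ d
    have h3 : σ (Sum.inr (Sum.inr j)) = Sum.inr k := hjk
    rw [h3]
    exact tup_inr_le a c d hcd k
  · have h1 := (symJoin_le (tup a c d) (bigMeet (Term.var (Sum.inr (Sum.inr 0)))
      (List.ofFn (fun j : Fin (n + 1) => Term.var (Sum.inr (Sum.inr j))))) _).1 (le_refl _) 1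
    refine le_trans ?_ h1
    rw [le_bigMeet]
    refine ⟨le_refl d, ?_⟩
    intro s hs
    rw [List.mem_ofFn] at hs
    obtain ⟨j, rfl⟩ := hs
    exact le_refl d

include hcd in
theorem eval_CC : (CC n).eval (tup a c d) = c := by
  apply le_antisymm
  · have h1 := (le_symMeet (tup a c d) (bigJoin (Term.var (Sum.inr (Sum.inl 0)))
      (List.ofFn (fun j : Fin (n + 1) => Term.var (Sum.inr (Sum.inl j))))) _).1 (le_refl _) 1
    refine le_trans h1 ?_
    rw [bigJoin_le]
    refine ⟨le_refl c, ?_⟩
    intro s hs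
    rw [List.mem_ofFn] at hs
    obtain ⟨j, rfl⟩ := hs
    exact le_refl c
  · rw [CC, le_symMeet]
    intro σ
    obtain ⟨j, k, hjk⟩ := exists_not_inl (fun j : Fin (n + 1) => σ (Sum.inr (Sum.inl j)))
      (fun x y hxy => by
        have := σ.injective hxy
        simpa using this)
    have h1 := (bigJoin_le (tup a c d ∘ σ) (Term.var (Sum.inr (Sum.inl 0)))
      (List.ofFn (fun j : Fin (n + 1) => Term.var (Sum.inr (Sum.inl j)))) _).1 (le_refl _)
    have h2 := h1.2 (Term.var (Sum.inr (Sum.inl j))) (by rw [List.mem_ofFn]; exact ⟨j, rfl⟩)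
    refine le_trans ?_ h2
    show c ≤ tup a c d (σ (Sum.inr (Sum.inl j)))
    have h3 : σ (Sum.inr (Sum.inl j)) = Sum.inr k := hjk
    rw [h3]
    exact le_tup_inr a c d hcd k

/-- A term all of whose values at permuted special tuples are `c` or `d`, with value `d` at the
special tuple itself. -/
def Good (g : Term (J n)) : Prop :=
  (∀ σ : Equiv.Perm (J n), g.eval (tup a c d ∘ σ) = c ∨ g.eval (tup a c d ∘ σ) = d) ∧
    g.eval (tup a c d) = d

open Classical in
/-- The set of permutations at which the value is `d`. -/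
noncomputable def FF (g : Term (J n)) : Finset (Equiv.Perm (J n)) :=
  Finset.univ.filter (fun σ => g.eval (tup a c d ∘ σ) = d)

theorem mem_FF (g : Term (J n)) (σ : Equiv.Perm (J n)) :
    σ ∈ FF a c d g ↔ g.eval (tup a c d ∘ σ) = d := by
  simp [FF]

include hcd in
theorem good_DD : Good a c d (DD n) := by
  refine ⟨fun σ => Or.inr ?_, eval_DD a c d hcd⟩
  rw [DD, symJoin_comp]
  exact eval_DD a c d hcd

include hcd in
/-- The minimal good term. -/
theorem exists_minimal : ∃ g, Good a c d g ∧ ∀ v, Good a c d v → FF a c d g ⊆ FF a c d v := by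
  obtain ⟨g, hg, hmin⟩ := (measure (fun g : Term (J n) => (FF a c d g).card)).wf.has_min
    {g | Good a c d g} ⟨DD n, good_DD a c d hcd⟩
  refine ⟨g, hg, ?_⟩
  intro v hv
  have hm : Good a c d (Term.meet v g) := by
    refine ⟨fun σ => ?_, ?_⟩
    · show v.eval _ ⊓ g.eval _ = c ∨ v.eval _ ⊓ g.eval _ = d
      rcases hv.1 σ with h1 | h1 <;> rcases hg.1 σ with h2 | h2 <;> rw [h1, h2] <;>
        simp [hcd]
    · show v.eval _ ⊓ g.eval _ = d
      rw [hv.2, hg.2, inf_idem]
  have hsub : FF a c d (Term.meet v g) ⊆ FF a c d g := by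
    intro σ hσ
    rw [mem_FF] at hσ ⊢
    have h1 : v.eval (tup a c d ∘ σ) ⊓ g.eval (tup a c d ∘ σ) = d := hσ
    rcases hg.1 σ with h2 | h2
    · have h3 : d ≤ c := by
        rw [← h1]
        exact inf_le_right.trans h2.le
      rw [h2]
      exact le_antisymm hcd h3
    · exact h2
  have hcard : (FF a c d g).card ≤ (FF a c d (Term.meet v g)).card :=
    not_lt.1 (hmin _ hm)
  have heq := Finset.eq_of_subset_of_card_le hsub hcard
  intro σ hσ
  rw [← heq, mem_FF] at hσ
  rw [mem_FF]
  have h1 : v.eval (tup a c d ∘ σ) ⊓ g.eval (tup a c d ∘ σ) = d := hσ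
  rcases hv.1 σ with h2 | h2
  · have h3 : d ≤ c := by
      rw [← h1]
      exact inf_le_left.trans h2.le
    rw [h2]
    exact le_antisymm hcd h3
  · exact h2

/-- `(p ∨ C) ∧ D`. -/
noncomputable def PP (p : Term (Fin n)) : Term (J n) :=
  Term.meet (Term.join (p.rename Sum.inl) (CC n)) (DD n)

include hcd in
theorem eval_PP (p : Term (Fin n)) (σ : Equiv.Perm (J n)) :
    (PP p).eval (tup a c d ∘ σ) = (p.eval ((tup a c d ∘ σ) ∘ Sum.inl) ⊔ c) ⊓ d := by
  show ((p.rename Sum.inl).eval (tup a c d ∘ σ) ⊔ (CC n).eval (tup a c d ∘ σ)) ⊓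
    (DD n).eval (tup a c d ∘ σ) = _
  rw [eval_rename]
  have h1 : (CC n).eval (tup a c d ∘ σ) = c := by
    rw [CC, symMeet_comp]; exact eval_CC a c d hcd
  have h2 : (DD n).eval (tup a c d ∘ σ) = d := by
    rw [DD, symJoin_comp]; exact eval_DD a c d hcd
  rw [h1, h2]

/-- The two symmetric terms take different values. -/
theorem core_aux (hlt : c < d) (hcov : ∀ x, c ≤ x → x ≤ d → x = c ∨ x = d)
    (p q : Term (Fin n)) (hp : p.eval a ≤ c) (hq : d ≤ q.eval a) :
    ∃ g : Term (J n), (symJoin (Term.meet (PP p) g)).eval (tup a c d) ≠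
      (symJoin (Term.meet (PP q) g)).eval (tup a c d) := by
  have hcd : c ≤ d := hlt.le
  obtain ⟨g, hg, hmin⟩ := exists_minimal a c d hcd
  refine ⟨g, ?_⟩
  have hval : ∀ (r : Term (Fin n)) (σ : Equiv.Perm (J n)),
      (PP r).eval (tup a c d ∘ σ) = c ∨ (PP r).eval (tup a c d ∘ σ) = d := by
    intro r σ
    rw [eval_PP a c d hcd]
    exact hcov _ (le_inf le_sup_right hcd) inf_le_right
  have hone : tup a c d ∘ (1 : Equiv.Perm (J n)) = tup a c d := rfl
  have hPb : (PP p).eval (tup a c d) = c := by
    have := eval_PP a c d hcd p 1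
    rw [hone] at this
    rw [this]
    have e : (tup a c d) ∘ (Sum.inl : Fin n → J n) = a := rfl
    rw [e, sup_eq_right.2 hp]
    exact inf_eq_left.2 hcd
  have hQb : (PP q).eval (tup a c d) = d := by
    have := eval_PP a c d hcd q 1
    rw [hone] at this
    rw [this]
    have e : (tup a c d) ∘ (Sum.inl : Fin n → J n) = a := rfl
    rw [e]
    exact inf_eq_right.2 (hq.trans le_sup_left)
  have key : ∀ σ ∈ FF a c d g, (PP p).eval (tup a c d ∘ σ) = c := by
    intro σ hσ
    by_contra hne
    have hd : (PP p).eval (tup a c d ∘ σ) = d := (hval p σ).resolve_left hne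
    have hall : ∀ k : ℕ, (PP p).eval (tup a c d ∘ (σ ^ (k + 1) : Equiv.Perm (J n))) = d := by
      intro k
      induction k with
      | zero => simpa using hd
      | succ k ih =>
        have hv : Good a c d ((PP p).rename (σ ^ (k + 1) : Equiv.Perm (J n))) := by
          refine ⟨fun τ => ?_, ?_⟩
          · rw [eval_rename]
            exact hval p (τ * σ ^ (k + 1))
          · rw [eval_rename]
            exact ih
        have h1 := hmin _ hv hσ
        rw [mem_FF, eval_rename] at h1
        have e : (tup a c d ∘ σ) ∘ (σ ^ (k + 1) : Equiv.Perm (J n)) =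
            tup a c d ∘ (σ ^ (k + 1 + 1) : Equiv.Perm (J n)) := by
          rw [pow_succ' σ (k + 1)]
          rfl
        rwa [e] at h1
    have hpos : 0 < orderOf σ := orderOf_pos σ
    have h2 := hall (orderOf σ - 1)
    rw [Nat.sub_add_cancel hpos, pow_orderOf_eq_one, hone, hPb] at h2
    exact hlt.ne h2
  have hT : (symJoin (Term.meet (PP p) g)).eval (tup a c d) ≤ c := by
    rw [symJoin_le]
    intro σ
    show (PP p).eval (tup a c d ∘ σ) ⊓ g.eval (tup a c d ∘ σ) ≤ c
    by_cases hσ : σ ∈ FF a c d g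
    · exact inf_le_left.trans (key σ hσ).le
    · have h3 : g.eval (tup a c d ∘ σ) = c := by
        rcases hg.1 σ with h | h
        · exact h
        · exact absurd ((mem_FF a c d g σ).2 h) hσ
      exact inf_le_right.trans h3.le
  have hS : d ≤ (symJoin (Term.meet (PP q) g)).eval (tup a c d) := by
    have h1 := (symJoin_le (tup a c d) (Term.meet (PP q) g) _).1 (le_refl _) 1
    refine le_trans ?_ h1
    show d ≤ (PP q).eval (tup a c d) ⊓ g.eval (tup a c d)
    rw [hQb, hg.2, inf_idem]
  intro h
  rw [h] at hT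
  exact absurd (hS.trans hT) hlt.not_ge

end core

/-- Evaluation of a symmetrised term is compatible with identities. -/
theorem eval_sym_congr {n : ℕ} {M : Type u} [Lattice M] (p q : Term (Fin n)) (g : Term (J n))
    (h : ∀ a : Fin n → M, p.eval a = q.eval a) (b : J n → M) :
    (symJoin (Term.meet (PP p) g)).eval b = (symJoin (Term.meet (PP q) g)).eval b := by
  apply eq_of_forall_ge_iff
  intro z
  rw [symJoin_le, symJoin_le]
  have e : ∀ σ : Equiv.Perm (J n), (Term.meet (PP p) g).eval (b ∘ σ) =
      (Term.meet (PP q) g).eval (b ∘ σ) := by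
    intro σ
    show ((p.rename Sum.inl).eval (b ∘ σ) ⊔ (CC n).eval (b ∘ σ)) ⊓ (DD n).eval (b ∘ σ) ⊓
      g.eval (b ∘ σ) = ((q.rename Sum.inl).eval (b ∘ σ) ⊔ (CC n).eval (b ∘ σ)) ⊓
      (DD n).eval (b ∘ σ) ⊓ g.eval (b ∘ σ)
    rw [eval_rename, eval_rename, h]
  exact forall_congr' (fun σ => by rw [e σ])

/-- Transporting a term whose evaluation is permutation invariant to variables `Fin N`. -/
theorem isSymmetric_of_comp {ι : Type} {N : ℕ} (e : ι ≃ Fin N) (t : Term ι)
    (h : ∀ (L : Type) [Lattice L] (a : ι → L) (τ : Equiv.Perm ι), t.eval (a ∘ τ) = t.eval a) :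
    (t.rename e).IsSymmetric := by
  intro σ
  apply latEq_of_eval
  intro a
  rw [eval_rename, eval_rename, eval_rename]
  have h1 := h _ (a ∘ e) (e.trans (σ.trans e.symm))
  have e1 : (a ∘ e) ∘ (e.trans (σ.trans e.symm)) = (a ∘ σ) ∘ e := by
    funext i
    simp
  rw [e1] at h1
  exact h1

/-- The core: a failure of an identity at a covering pair yields the failure of a symmetric
identity. -/
theorem core {n : ℕ} {M : Type u} [Lattice M] (a : Fin n → M) (c d : M) (hlt : c < d)
    (hcov : ∀ x, c ≤ x → x ≤ d → x = c ∨ x = d)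
    (p q : Term (Fin n)) (hp : p.eval a ≤ c) (hq : d ≤ q.eval a) :
    ∃ e : Identity, e.IsSymmetric ∧ ¬ e.HoldsIn M ∧
      ∀ (M' : Type u) [Lattice M'], (∀ a : Fin n → M', p.eval a = q.eval a) → e.HoldsIn M' := by
  obtain ⟨g, hg⟩ := core_aux a c d hlt hcov p q hp hq
  let ε : J n ≃ Fin (Fintype.card (J n)) := Fintype.equivFin (J n)
  refine ⟨⟨Fintype.card (J n), (symJoin (Term.meet (PP p) g)).rename ε,
    (symJoin (Term.meet (PP q) g)).rename ε⟩, ⟨?_, ?_⟩, ?_, ?_⟩
  · exact isSymmetric_of_comp ε _ (fun L _ a τ => symJoin_comp a _ τ)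
  · exact isSymmetric_of_comp ε _ (fun L _ a τ => symJoin_comp a _ τ)
  · intro h
    have h1 := h (tup a c d ∘ ε.symm)
    simp only [eval_rename] at h1
    have e1 : (tup a c d ∘ ε.symm) ∘ ε = tup a c d := by
      funext i; simp
    rw [e1] at h1
    exact hg h1
  · intro M' _ h b
    show ((symJoin (Term.meet (PP p) g)).rename ε).eval b =
      ((symJoin (Term.meet (PP q) g)).rename ε).eval b
    rw [eval_rename, eval_rename]
    exact eval_sym_congr p q g h _

section ideals

variable {L : Type u} [Lattice L]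

theorem eval_principal {ι : Type} (a : ι → L) (t : Term ι) :
    t.eval (fun i => Order.Ideal.principal (a i)) = Order.Ideal.principal (t.eval a) := by
  induction t with
  | var i => rfl
  | meet s t hs ht =>
    simp only [Term.eval, hs, ht]
    ext x
    simp
  | join s t hs ht =>
    simp only [Term.eval, hs, ht]
    ext x
    simp only [Order.Ideal.mem_sup, SetLike.mem_coe, Order.Ideal.mem_principal]
    constructor
    · rintro ⟨i, hi, j, hj, hx⟩
      exact hx.trans (sup_le_sup hi hj)
    · intro hx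
      exact ⟨_, le_refl _, _, le_refl _, hx⟩

theorem mem_eval {ι : Type} [Finite ι] (I : ι → Order.Ideal L) (t : Term ι) (x : L) :
    x ∈ t.eval I ↔ ∃ a : ι → L, (∀ i, a i ∈ I i) ∧ x ≤ t.eval a := by
  classical
  induction t generalizing x with
  | var i =>
    constructor
    · intro hx
      have hne : ∀ j, ∃ y, y ∈ I j := fun j => (I j).nonempty
      choose f hf using hne
      refine ⟨Function.update f i x, ?_, ?_⟩
      · intro j
        by_cases hj : j = i
        · subst hj
          rw [Function.update_self]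
          exact hx
        · rw [Function.update_of_ne hj]
          exact hf j
      · show x ≤ Function.update f i x i
        rw [Function.update_self]
    · rintro ⟨a, ha, hx⟩
      exact (I i).lower hx (ha i)
  | meet s t hs ht =>
    show x ∈ s.eval I ⊓ t.eval I ↔ _
    rw [Order.Ideal.mem_inf, hs, ht]
    constructor
    · rintro ⟨⟨a, ha, hxa⟩, ⟨b, hb, hxb⟩⟩
      refine ⟨fun i => a i ⊔ b i, fun i => (I i).sup_mem (ha i) (hb i), ?_⟩
      exact le_inf (hxa.trans (eval_mono (fun i => le_sup_left) s))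
        (hxb.trans (eval_mono (fun i => le_sup_right) t))
    · rintro ⟨a, ha, hx⟩
      exact ⟨⟨a, ha, hx.trans inf_le_left⟩, ⟨a, ha, hx.trans inf_le_right⟩⟩
  | join s t hs ht =>
    show x ∈ s.eval I ⊔ t.eval I ↔ _
    rw [Order.Ideal.mem_sup]
    constructor
    · rintro ⟨i, hi, j, hj, hx⟩
      obtain ⟨a, ha, hia⟩ := (hs i).1 hi
      obtain ⟨b, hb, hjb⟩ := (ht j).1 hj
      refine ⟨fun i => a i ⊔ b i, fun i => (I i).sup_mem (ha i) (hb i), ?_⟩
      exact hx.trans (sup_le_sup (hia.trans (eval_mono (fun i => le_sup_left) s))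
        (hjb.trans (eval_mono (fun i => le_sup_right) t)))
    · rintro ⟨a, ha, hx⟩
      exact ⟨s.eval a, (hs _).2 ⟨a, ha, le_refl _⟩, t.eval a, (ht _).2 ⟨a, ha, le_refl _⟩, hx⟩

/-- The ideal lattice satisfies every identity that holds in `L`. -/
theorem holds_ideal (e : Identity) (h : e.HoldsIn L) : e.HoldsIn (Order.Ideal L) := by
  intro I
  ext x
  rw [SetLike.mem_coe, SetLike.mem_coe, mem_eval, mem_eval]
  constructor
  · rintro ⟨a, ha, hx⟩
    exact ⟨a, ha, by rwa [← h a]⟩
  · rintro ⟨a, ha, hx⟩
    exact ⟨a, ha, by rwa [h a]⟩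

/-- In the ideal lattice there is a coatom of `↓y` containing `x`, for `x < y`. -/
theorem exists_cover (x y : L) (hxy : x < y) :
    ∃ c : Order.Ideal L, Order.Ideal.principal x ≤ c ∧ c < Order.Ideal.principal y ∧
      ∀ z, c ≤ z → z ≤ Order.Ideal.principal y → z = c ∨ z = Order.Ideal.principal y := by
  let S : Set (Order.Ideal L) := {I | Order.Ideal.principal x ≤ I ∧
    I ≤ Order.Ideal.principal y ∧ y ∉ I}
  have hx : Order.Ideal.principal x ∈ S := by
    refine ⟨le_refl _, ?_, ?_⟩
    · rw [Order.Ideal.principal_le_iff, Order.Ideal.mem_principal]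
      exact hxy.le
    · rw [Order.Ideal.mem_principal]
      exact hxy.not_ge
  obtain ⟨c, hxc, hc⟩ := zorn_le_nonempty₀ S (by
    intro ch hch hchain I hI
    refine ⟨⟨⟨⋃ J ∈ ch, (J : Set L), ?_⟩, ?_, ?_⟩, ⟨?_, ?_, ?_⟩, ?_⟩
    · intro u v huv hu
      simp only [Set.mem_iUnion] at hu ⊢
      obtain ⟨J, hJ, huJ⟩ := hu
      exact ⟨J, hJ, J.lower huv huJ⟩
    · obtain ⟨u, hu⟩ := I.nonempty
      exact ⟨u, by simp only [Set.mem_iUnion]; exact ⟨I, hI, hu⟩⟩
    · intro u hu v hv
      simp only [Set.mem_iUnion] at hu hv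
      obtain ⟨J, hJ, huJ⟩ := hu
      obtain ⟨K, hK, hvK⟩ := hv
      rcases hchain.total hJ hK with h | h
      · exact ⟨u ⊔ v, by simp only [Set.mem_iUnion]; exact ⟨K, hK, K.sup_mem (h huJ) hvK⟩,
          le_sup_left, le_sup_right⟩
      · exact ⟨u ⊔ v, by simp only [Set.mem_iUnion]; exact ⟨J, hJ, J.sup_mem huJ (h hvK)⟩,
          le_sup_left, le_sup_right⟩
    · intro u hu
      show u ∈ ⋃ J ∈ ch, (J : Set L)
      simp only [Set.mem_iUnion]
      exact ⟨I, hI, (hch hI).1 hu⟩
    · intro u hu
      have hu' : u ∈ ⋃ J ∈ ch, (J : Set L) := hu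
      simp only [Set.mem_iUnion] at hu'
      obtain ⟨J, hJ, huJ⟩ := hu'
      exact (hch hJ).2.1 huJ
    · intro hy
      have hy' : y ∈ ⋃ J ∈ ch, (J : Set L) := hy
      simp only [Set.mem_iUnion] at hy'
      obtain ⟨J, hJ, hyJ⟩ := hy'
      exact (hch hJ).2.2 hyJ
    · intro J hJ u hu
      show u ∈ ⋃ J ∈ ch, (J : Set L)
      simp only [Set.mem_iUnion]
      exact ⟨J, hJ, hu⟩) _ hx
  refine ⟨c, hxc, ?_, ?_⟩
  · refine lt_of_le_of_ne hc.prop.2.1 ?_
    intro h
    apply hc.prop.2.2
    rw [h]
    exact Order.Ideal.mem_principal_self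
  · intro z hz1 hz2
    by_cases hy : y ∈ z
    · right
      exact le_antisymm hz2 (Order.Ideal.principal_le_iff.2 hy)
    · left
      exact le_antisymm (hc.le_of_ge ⟨hxc.trans hz1, hz2, hy⟩ hz1) hz1

end ideals

/-- A lattice in which an identity of the variety fails also fails a symmetric identity of the
variety. -/
theorem exists_symmetric (S : Set Identity) (L : Type u) [Lattice L] (f : Identity)
    (hf : HoldsInVariety.{u} S f) (hL : ¬ f.HoldsIn L) :
    ∃ e : Identity, e.IsSymmetric ∧ HoldsInVariety.{u} S e ∧ ¬ e.HoldsIn L := by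
  have h1 : ∃ a : Fin f.n → L, f.lhs.eval a ≠ f.rhs.eval a := by
    by_contra h
    push Not at h
    exact hL h
  obtain ⟨a, ha⟩ := h1
  let p : Term (Fin f.n) := Term.meet f.lhs f.rhs
  let q : Term (Fin f.n) := Term.join f.lhs f.rhs
  have hlt : p.eval a < q.eval a := by
    show f.lhs.eval a ⊓ f.rhs.eval a < f.lhs.eval a ⊔ f.rhs.eval a
    rw [inf_lt_sup]
    exact ha
  obtain ⟨c, hc1, hc2, hc3⟩ := exists_cover _ _ hlt
  obtain ⟨e, he1, he2, he3⟩ := core (fun i => Order.Ideal.principal (a i)) c
    (Order.Ideal.principal (q.eval a)) hc2 hc3 p q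
    (by rw [eval_principal]; exact hc1) (by rw [eval_principal])
  refine ⟨e, he1, ?_, fun h => he2 (holds_ideal e h)⟩
  intro M _ hM
  apply he3
  intro b
  have h2 := hf M hM b
  show f.lhs.eval b ⊓ f.rhs.eval b = f.lhs.eval b ⊔ f.rhs.eval b
  rw [h2, inf_idem, sup_idem]

/-- **Every lattice variety is determined by its symmetric identities.**
Let `S` be any set of lattice identities and `𝒱` the variety of lattices it defines.
(1) A lattice (in any universe) belongs to `𝒱` if and only if it satisfies every symmetric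
identity that holds in `𝒱`, that is `𝒱 = 𝒱^sym`.
(2) Every identity valid in `𝒱` holds in every lattice satisfying all symmetric identities valid
in `𝒱`. -/
theorem result (S : Set Identity) :
    (∀ (L : Type u) [Lattice L], InVariety S L ↔ InSymmetricPart S L) ∧
    (∀ f : Identity, HoldsInVariety.{u} S f →
      ∀ (L : Type u) [Lattice L], InSymmetricPart S L → f.HoldsIn L) := by
  have h2 : ∀ f : Identity, HoldsInVariety.{u} S f →
      ∀ (L : Type u) [Lattice L], InSymmetricPart S L → f.HoldsIn L := by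
    intro f hf L _ hL
    by_contra h
    obtain ⟨e, he1, he2, he3⟩ := exists_symmetric S L f hf h
    exact he3 (hL e he1 he2)
  refine ⟨?_, h2⟩
  intro L _
  constructor
  · intro h e _ he
    exact he L h
  · intro h e he
    exact h2 e (fun M _ hM => hM e he) L h

end Pool.Agent.Results.MP_fa43b0_al.SymmetricIdentities
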